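import Pool.Agent.Helper50.KP.GoalsF

/-!
# Project KP (MP_5a63b6_lc), packet STP: the number of colourings is an invariant
-/

set_option autoImplicit false

namespace Pool.Agent.Helper70.KP

open Pool.Agent.Helper50.KP

section

variable {G : Type} [Group G] [Fintype G] [DecidableEq G]

theorem loc_len (K : Kind) (P : List G) (hP : P.length = K.i) (o : List G) (ho : o ∈ loc K P) :
    o.length = K.o := by
  cases K with
  | cup =>
    simp only [loc, Finset.mem_image, Finset.mem_univ, true_and] at ho
    obtain ⟨g, rfl⟩ := ho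
    rfl
  | cap =>
    match P, hP with
    | [g, h], _ =>
      simp only [loc] at ho
      split_ifs at ho with h1
      · rw [Finset.mem_singleton] at ho
        rw [ho]
        rfl
      · simp at ho
  | X s =>
    match P, hP with
    | [g, h], _ =>
      simp only [loc, Finset.mem_singleton] at ho
      rw [ho]
      cases s <;> rfl

theorem cnt_cons (e : Ev) (w : Word) (L : List G) :
    cnt (e :: w) L = ∑ o ∈ loc e.1 ((L.drop e.2).take e.1.i),
      cnt w (L.take e.2 ++ o ++ L.drop (e.2 + e.1.i)) := rfl

theorem ctx (w w' : Word) (n' : ℕ) (h : ∀ L : List G, L.length = n' → cnt w L = cnt w' L)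
    (u : Word) : ∀ (n : ℕ), str u n = some n' → ∀ L : List G, L.length = n →
      cnt (u ++ w) L = cnt (u ++ w') L := by
  induction u with
  | nil =>
    intro n hn L hL
    simp only [str, Option.some.injEq] at hn
    exact h L (hL.trans hn)
  | cons e u ih =>
    intro n hn L hL
    have e1 : str (e :: u) n = if e.2 + e.1.i ≤ n then str u (n - e.1.i + e.1.o) else none := rfl
    rw [e1] at hn
    split_ifs at hn with h1
    rw [List.cons_append, List.cons_append, cnt_cons, cnt_cons]
    refine Finset.sum_congr rfl fun o ho => ?_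
    refine ih _ hn _ ?_
    have h2 : o.length = e.1.o := by
      refine loc_len e.1 _ ?_ o ho
      rw [List.length_take, List.length_drop]
      omega
    rw [List.length_append, List.length_append, List.length_take, List.length_drop, h2]
    omega

end

/-- moves of the first kind, one direction -/
theorem pl_cnt (hMVA : MVA) (hMVB : MVB) (G : Type) [Group G] [Fintype G] [DecidableEq G]
    (l r v : Word) (L : List G) (k k' : ℕ) (h : Pl l r) (h1 : str l L.length = some k)
    (h2 : str r L.length = some k') : cnt (l ++ v) L = cnt (r ++ v) L := by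
  cases h with
  | zig i => exact hMVA G _ _ v L k k' ⟨i, Or.inl ⟨rfl, rfl⟩⟩ h1 h2
  | zag i => exact hMVA G _ _ v L k k' ⟨i, Or.inr (Or.inl ⟨rfl, rfl⟩)⟩ h1 h2
  | pcap i s => exact hMVA G _ _ v L k k' ⟨i, Or.inr (Or.inr (Or.inl ⟨s, rfl, rfl⟩))⟩ h1 h2
  | pcup i s => exact hMVA G _ _ v L k k' ⟨i, Or.inr (Or.inr (Or.inr ⟨s, rfl, rfl⟩))⟩ h1 h2
  | comm K K' i d => exact hMVB G K K' i d v L k k' h1 h2

theorem gSTP (hSTR : STR) (hMVA : MVA) (hMVB : MVB) (hMVC : MVC) : STP := by
  intro G _ _ _ w w' hs
  obtain ⟨hd, hd', u, v, l, r, hm, rfl, rfl⟩ := hs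
  unfold IsDia at hd hd'
  rw [hSTR.1, hSTR.1] at hd hd'
  obtain ⟨n', hn'⟩ : ∃ n', str u 0 = some n' := by
    cases hu : str u 0 with
    | none => rw [hu] at hd; simp at hd
    | some n' => exact ⟨n', rfl⟩
  rw [hn', Option.bind_some] at hd hd'
  obtain ⟨k, hk⟩ : ∃ k, str l n' = some k := by
    cases hl : str l n' with
    | none => rw [hl] at hd; simp at hd
    | some k => exact ⟨k, rfl⟩
  obtain ⟨k', hk'⟩ : ∃ k, str r n' = some k := by
    cases hr : str r n' with
    | none => rw [hr] at hd'; simp at hd'
    | some k => exact ⟨k, rfl⟩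
  rw [List.append_assoc, List.append_assoc]
  refine ctx (l ++ v) (r ++ v) n' ?_ u 0 hn' [] rfl
  intro L hL
  rw [← hL] at hk hk'
  rcases hm with h | h | h | h
  · exact pl_cnt hMVA hMVB G l r v L k k' h hk hk'
  · exact (pl_cnt hMVA hMVB G r l v L k' k h hk' hk).symm
  · exact hMVC G l r v L k k' h hk hk'
  · exact (hMVC G r l v L k' k h hk' hk).symm

end Pool.Agent.Helper70.KP
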